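import Pool.Agent.AcyTest.CUT
import Pool.Agent.AcyTest.CYC
import Pool.Agent.AcyTest.DEL
import Pool.Agent.AcyTest.EXA
import Pool.Agent.AcyTest.EX
import Pool.Agent.AcyTest.REL
import Pool.Agent.AcyTest.SEED
import Pool.Agent.AcyTest.TREE
import Pool.Agent.AcyAd.All1
import Pool.Agent.AcyAd.All2
import Pool.Agent.AcyAd.PXA
import Pool.Agent.AcyAd.PXX
import Pool.Agent.AcyAd.PXY
import Pool.Agent.AcyAd.PARX
import Pool.Agent.AcyAd.THR
import Pool.Agent.AcyAd.HCH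
import Pool.Agent.AcyAd.AS1
import Pool.Agent.AcyAd.AS2
import Pool.Agent.AcyAd.ASY
import Pool.Agent.AcyAd.FIN

/-!
# MP_08c6cd_lc: adaptive testers with two-sided error

In the bounded-degree model with incidence lists in both directions, for every `δ > 0` and every
small enough `ε > 0`, every adaptive `ε`-tester for acyclicity with two-sided error needs more than
`n ^ (1 - δ)` queries.
-/

namespace Pool.Agent.Results.MP_08c6cd_lc.Adaptive

open Pool.Agent.AcyTest Pool.Agent.AcyAd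

theorem result (d : ℕ) (hd : 2 ≤ d) (δ : ℝ) (hδ : 0 < δ) : ∃ ε₀ : ℝ, 0 < ε₀ ∧ ∃ n₀ : ℕ,
    ∀ n ≥ n₀, ∀ r q : ℕ, ∀ ε : ℝ, 0 < ε → ε ≤ ε₀ →
      ∀ T : Tester n d r q, T.IsTester ε → (n : ℝ) ^ (1 - δ) < q :=
  tFIN (tEX tCUT tCYC (tEXA tDEL tDOWN)) tREL aLOW aTL aCARD aCSZ tFXE tIB aIC aIM aIP tIF tFFX
    aTW aIACY aIFD (tPARX tPXA tPXX tPXY) (tASY tTHR tHCH tAS1 tAS2) d hd δ hδ

end Pool.Agent.Results.MP_08c6cd_lc.Adaptive
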