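import Pool.Agent.AcyTest.CUT
import Pool.Agent.AcyTest.CYC
import Pool.Agent.AcyTest.DEL
import Pool.Agent.AcyTest.EXA
import Pool.Agent.AcyTest.EX
import Pool.Agent.AcyTest.REL
import Pool.Agent.AcyTest.RUN
import Pool.Agent.AcyTest.HIT
import Pool.Agent.AcyTest.SEED
import Pool.Agent.AcyTest.TREE
import Pool.Agent.AcyTest.DCYC
import Pool.Agent.AcyTest.ONE
import Pool.Agent.AcyTest.FinalOne

/-!
# MP_08c6cd_lc: one-sided testers with few rounds of adaptivity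

In the bounded-degree model with incidence lists in both directions, a one-sided tester for
acyclicity with `r` rounds of adaptivity needs at least `n / C ^ r` queries.
-/

namespace Pool.Agent.Results.MP_08c6cd_lc.OneSided

open Pool.Agent.AcyTest

theorem result (d : ℕ) (hd : 2 ≤ d) : ∃ ε₀ : ℝ, 0 < ε₀ ∧ ∃ C : ℝ, 1 < C ∧ ∃ n₀ : ℕ,
    ∀ n ≥ n₀, ∀ r q : ℕ, 1 ≤ r → 1 ≤ q → ∀ ε : ℝ, 0 < ε → ε ≤ ε₀ →
      ∀ T : Tester n d r q, T.IsOneSided ε → (n : ℝ) ≤ C ^ r * q :=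
  tONESIDED (tEX tCUT tCYC (tEXA tDEL tDOWN)) tREL tFAR
    (tONE tMINUS tRUN (tSEED (tHIT tRUN) tRUN) (tDCYC tTREE) (tAPART tTREE)) d hd

end Pool.Agent.Results.MP_08c6cd_lc.OneSided
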