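import Pool.Agent.AcyUp.Main

/-!
# MP_08c6cd_lc: a tester with a sublinear number of queries

In the bounded-degree model with incidence lists in both directions acyclicity has, for every
degree bound `d` and every `ε > 0`, an `ε`-tester with one-sided error which asks at most
`n ^ (1 - c)` queries, `c = c(d, ε) > 0`.
-/

namespace Pool.Agent.Results.MP_08c6cd_lc.Sublinear

open Pool.Agent.AcyTest

theorem result (d : ℕ) (hd : 1 ≤ d) (ε : ℝ) (hε : 0 < ε) : ∃ c : ℝ, 0 < c ∧ ∃ n₀ : ℕ,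
    ∀ n ≥ n₀, ∃ (r q : ℕ) (T : Tester n d r q), (q : ℝ) ≤ (n : ℝ) ^ (1 - c) ∧ T.IsOneSided ε := by
  obtain ⟨c, hc, n₀, h⟩ := Pool.Agent.AcyUp.aEND d (min ε 1) hd (lt_min hε one_pos) (min_le_right _ _)
  refine ⟨c, hc, n₀, fun n hn => ?_⟩
  obtain ⟨r, q, T, hq, hT⟩ := h n hn
  refine ⟨r, q, T, hq, hT.1, fun G hG => hT.2 G fun G' hG' => lt_of_le_of_lt ?_ (hG G' hG')⟩
  have h1 : min ε 1 ≤ ε := min_le_left _ _
  have h2 : (0 : ℝ) ≤ d * n := by positivity
  calc min ε 1 * d * n = min ε 1 * (d * n) := by ring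
    _ ≤ ε * (d * n) := mul_le_mul_of_nonneg_right h1 h2
    _ = ε * d * n := by ring

end Pool.Agent.Results.MP_08c6cd_lc.Sublinear
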