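import Pool.Agent.AcyTest.CUT
import Pool.Agent.AcyTest.CYC
import Pool.Agent.AcyTest.DEL
import Pool.Agent.AcyTest.EXA
import Pool.Agent.AcyTest.EX
import Pool.Agent.AcyTest.REL
import Pool.Agent.AcyTest.RUN
import Pool.Agent.AcyTest.HIT
import Pool.Agent.AcyTest.SEED
import Pool.Agent.AcyTest.TREE
import Pool.Agent.AcyTest.POT
import Pool.Agent.AcyTest.LAY
import Pool.Agent.AcyTest.SURG
import Pool.Agent.AcyTest.BAD
import Pool.Agent.AcyTest.CHAIN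
import Pool.Agent.AcyTest.FinalTwo

/-!
# MP_08c6cd_lc: two-sided testers with few rounds of adaptivity

In the bounded-degree model with incidence lists in both directions, a two-sided tester for
acyclicity with at most `c γ² log n` rounds of adaptivity needs more than `n ^ (1 - γ)` queries.
-/

namespace Pool.Agent.Results.MP_08c6cd_lc.TwoSided

open Pool.Agent.AcyTest

theorem result (d : ℕ) (hd : 2 ≤ d) : ∃ ε₀ : ℝ, 0 < ε₀ ∧ ∃ c : ℝ, 0 < c ∧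
    ∀ γ : ℝ, 0 < γ → γ < 1 → ∃ n₀ : ℕ, ∀ n ≥ n₀, ∀ r q : ℕ,
      (r : ℝ) ≤ c * γ ^ 2 * Real.log n → ∀ ε : ℝ, 0 < ε → ε ≤ ε₀ →
        ∀ T : Tester n d r q, T.IsTester ε → (n : ℝ) ^ (1 - γ) < q :=
  tTWOSIDED (tEX tCUT tCYC (tEXA tDEL tDOWN)) tREL tFAR tLFAS tCACY
    (tCCUT (tSEED (tHIT tRUN) tRUN) tRUN) (tSURG tRUN tTREE (tPOT tTREE))
    (tBAD (tSEED (tHIT tRUN) tRUN) (tAPART tTREE)) tCHAIN d hd

end Pool.Agent.Results.MP_08c6cd_lc.TwoSided
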